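import Mathlib

/-!
# MP_993e82_nt: pseudo-automorphisms of the cubic norm form `T`

We determine all pairs `f h : ℤ → ℂ` with `h (T x y z) = T (f x) (f y) (f z)` for all integers
`x y z`, where `T x y z = N(x + y α + z α')` is the norm form of the cubic field generated by a root
`α` of `X ^ 3 - 3 X + 1`, `α' = α ^ 2 - 2`.
-/

set_option autoImplicit false

namespace Pool.Agent.Results.MP_993e82_nt.Classification

/-- The norm form `T(x,y,z) = N(x + y α + z α')` written out as a polynomial, evaluated in an
arbitrary commutative ring (it is used below over `ℤ` and over `ℂ`). -/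
def T {R : Type} [CommRing R] (x y z : R) : R :=
  x ^ 3 - 3 * x * y ^ 2 - 3 * x * z ^ 2 + 3 * x * y * z - y ^ 3 + 6 * y ^ 2 * z
    - 3 * y * z ^ 2 - z ^ 3

/-- Invariance of `T` under the Galois group. -/
theorem T_rot {R : Type} [CommRing R] (x y z : R) : T x y z = T x (-z) (y - z) := by
  unfold T; ring

/-- **Classification.** The pairs `(f, h)` with `h (T x y z) = T (f x) (f y) (f z)` for all
integers `x, y, z` are exactly: `f` constant `= c` and `h = -c ^ 3` on the value set of `T`; or
`f n = c * n` and `h m = c ^ 3 * m` on the value set of `T`. -/
theorem result (f h : ℤ → ℂ) :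
    (∀ x y z : ℤ, h (T x y z) = T (f x) (f y) (f z)) ↔
      (∃ c : ℂ, (∀ n : ℤ, f n = c) ∧ (∀ x y z : ℤ, h (T x y z) = -c ^ 3)) ∨
      (∃ c : ℂ, (∀ n : ℤ, f n = c * (n : ℂ)) ∧
        (∀ x y z : ℤ, h (T x y z) = c ^ 3 * ((T x y z : ℤ) : ℂ))) := by
  constructor
  · intro H
    by_cases hconst : ∀ n : ℤ, f n = f 0
    · left
      refine ⟨f 0, hconst, ?_⟩
      intro x y z
      rw [H x y z, hconst x, hconst y, hconst z]
      unfold T; ring
    · right
      push Not at hconst
      obtain ⟨m, hm⟩ := hconst
      -- the basic relation
      have R1 : ∀ x y z : ℤ, T (f x) (f y) (f z) = T (f x) (f (-z)) (f (y - z)) := by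
        intro x y z
        rw [← H x y z, T_rot x y z, H x (-z) (y - z)]
      have hm' : f m - f 0 ≠ 0 := sub_ne_zero.mpr hm
      have hQ : ∀ y z : ℤ, f y ^ 2 - f y * f z + f z ^ 2
          = f (-z) ^ 2 - f (-z) * f (y - z) + f (y - z) ^ 2 := by
        intro y z
        have h1 := R1 m y z
        have h2 := R1 0 y z
        unfold T at h1 h2
        have h3 : (f m - f 0) * ((f y ^ 2 - f y * f z + f z ^ 2)
          - (f (-z) ^ 2 - f (-z) * f (y - z) + f (y - z) ^ 2)) = 0 := by
          linear_combination (-1 / 3 : ℂ) * h1 + (1 / 3 : ℂ) * h2
        rcases mul_eq_zero.mp h3 with h4 | h4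
        · exact absurd h4 hm'
        · exact sub_eq_zero.mp h4
      have hG : ∀ y z : ℤ, -f y ^ 3 + 6 * f y ^ 2 * f z - 3 * f y * f z ^ 2 - f z ^ 3
          = -f (-z) ^ 3 + 6 * f (-z) ^ 2 * f (y - z) - 3 * f (-z) * f (y - z) ^ 2
            - f (y - z) ^ 3 := by
        intro y z
        have h2 := R1 0 y z
        have h3 := hQ y z
        unfold T at h2
        linear_combination h2 + 3 * f 0 * h3
      -- the value at `0`
      have key : ∀ n : ℤ, f 0 * f n * (f n - f 0) = 0 := by
        intro n
        have h3 := hG n 0
        simp only [sub_zero, neg_zero] at h3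
        linear_combination (1 / 9 : ℂ) * h3
      have sq0 : ∀ n : ℤ, f n ^ 2 = f (-n) ^ 2 - f (-n) * f 0 + f 0 ^ 2 := by
        intro n
        have h1 := hQ n n
        simp only [sub_self] at h1
        linear_combination h1
      have cub0 : ∀ n : ℤ, f n ^ 3 = -f (-n) ^ 3 + 6 * f (-n) ^ 2 * f 0 - 3 * f (-n) * f 0 ^ 2
          - f 0 ^ 3 := by
        intro n
        have h1 := hG n n
        simp only [sub_self] at h1
        linear_combination h1
      have f0 : f 0 = 0 := by
        by_contra hne
        have hmz : f m = 0 := by
          have h1 := key m
          rcases mul_eq_zero.mp h1 with h2 | h2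
          · rcases mul_eq_zero.mp h2 with h3 | h3
            · exact absurd h3 hne
            · exact h3
          · exact absurd h2 hm'
        have h1 := sq0 m
        have h2 := cub0 m
        have h3 := key (-m)
        rw [hmz] at h1 h2
        rcases mul_eq_zero.mp h3 with h4 | h4
        · rcases mul_eq_zero.mp h4 with h5 | h5
          · exact hne h5
          · rw [h5] at h1
            have : f 0 ^ 2 = 0 := by linear_combination -h1
            exact hne (pow_eq_zero_iff (two_ne_zero) |>.mp this)
        · have h5 : f (-m) = f 0 := sub_eq_zero.mp h4
          rw [h5] at h2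
          have : f 0 ^ 3 = 0 := by linear_combination -h2
          exact hne (pow_eq_zero_iff (three_ne_zero) |>.mp this)
      have odd : ∀ n : ℤ, f (-n) = -f n := by
        intro n
        have h1 := sq0 n
        have h2 := cub0 n
        rw [f0] at h1 h2
        have h3 : (f (-n) - f n) * (f (-n) + f n) = 0 := by linear_combination -h1
        rcases mul_eq_zero.mp h3 with h4 | h4
        · have h5 : f (-n) = f n := sub_eq_zero.mp h4
          rw [h5] at h2
          have h6 : f n ^ 3 = 0 := by linear_combination (1 / 2 : ℂ) * h2
          have h7 : f n = 0 := pow_eq_zero_iff (three_ne_zero) |>.mp h6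
          rw [h5, h7]; ring
        · linear_combination h4
      -- near-additivity
      have add2 : ∀ z w : ℤ, f (z + w) ^ 2 - f (z + w) * f z = f z * f w + f w ^ 2 := by
        intro z w
        have h1 := hQ (z + w) z
        rw [odd z, show z + w - z = w by ring] at h1
        linear_combination h1
      have add : ∀ z w : ℤ, f z ≠ f w → f (z + w) = f z + f w := by
        intro z w hzw
        have h1 := add2 z w
        have h2 := add2 w z
        rw [add_comm w z] at h2
        have h3 : (f z - f w) * (f z + f w - f (z + w)) = 0 := by
          linear_combination h1 - h2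
        rcases mul_eq_zero.mp h3 with h4 | h4
        · exact absurd (sub_eq_zero.mp h4) hzw
        · linear_combination -h4
      -- it suffices to compute `f` on the natural numbers
      have hlin : ∀ n : ℕ, f (n : ℤ) = f 1 * (n : ℂ) := by
        by_cases f1 : f 1 = 0
        · intro n
          rw [f1, zero_mul]
          induction n with
          | zero => simpa using f0
          | succ k ih =>
            have h1 := add2 k 1
            rw [ih, f1] at h1
            have h2 : f ((k : ℤ) + 1) ^ 2 = 0 := by linear_combination h1
            have h3 : f ((k : ℤ) + 1) = 0 := pow_eq_zero_iff (two_ne_zero) |>.mp h2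
            push_cast
            exact h3
        · have h2 : (f 2 - 2 * f 1) * (f 2 + f 1) = 0 := by
            have h1 := add2 1 1
            rw [show (1 : ℤ) + 1 = 2 by norm_num] at h1
            linear_combination h1
          have f2 : f 2 = 2 * f 1 := by
            rcases mul_eq_zero.mp h2 with h3 | h3
            · exact sub_eq_zero.mp h3
            · exfalso
              have h4 : f 2 = -f 1 := by linear_combination h3
              have h5 : f 1 ≠ f 2 := by
                rw [h4]
                intro h6
                apply f1
                linear_combination (1 / 2 : ℂ) * h6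
              have f3 : f 3 = 0 := by
                have h6 := add 1 2 h5
                rw [show (1 : ℤ) + 2 = 3 by norm_num, h4] at h6
                rw [h6]; ring
              have h7 : T (f 1) (f 1) (f (-1)) = T (f (-3)) (f 0) (f (-1)) := by
                rw [← H, ← H]
                congr 1
              rw [odd 1, odd 3, f3, f0] at h7
              unfold T at h7
              have h8 : f 1 ^ 3 = 0 := by linear_combination (-1 / 18 : ℂ) * h7
              exact f1 (pow_eq_zero_iff (three_ne_zero) |>.mp h8)
          intro n
          induction n with
          | zero => simpa using f0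
          | succ k ih =>
            rcases Nat.lt_or_ge k 2 with hk | hk
            · interval_cases k
              · simp
              · norm_num
                rw [f2]; ring
            · have hne : f (k : ℤ) ≠ f 1 := by
                rw [ih]
                intro h3
                have h4 : f 1 * ((k : ℂ) - 1) = 0 := by linear_combination h3
                rcases mul_eq_zero.mp h4 with h5 | h5
                · exact f1 h5
                · have h6 : (k : ℂ) = ((1 : ℕ) : ℂ) := by
                    push_cast; linear_combination h5
                  have h7 : k = 1 := by exact_mod_cast h6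
                  omega
              have h3 := add k 1 hne
              push_cast
              rw [h3, ih]; ring
      have hall : ∀ n : ℤ, f n = f 1 * (n : ℂ) := by
        intro n
        obtain ⟨k, rfl | rfl⟩ := n.eq_nat_or_neg
        · simpa using hlin k
        · rw [odd, hlin k]
          push_cast; ring
      refine ⟨f 1, hall, ?_⟩
      intro x y z
      rw [H x y z, hall x, hall y, hall z]
      unfold T
      push_cast
      ring
  · rintro (⟨c, hf, hh⟩ | ⟨c, hf, hh⟩)
    · intro x y z
      rw [hh, hf, hf, hf]
      unfold T; ring
    · intro x y z
      rw [hh, hf, hf, hf]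
      unfold T
      push_cast
      ring

end Pool.Agent.Results.MP_993e82_nt.Classification
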